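import Mathlib

set_option autoImplicit false

namespace Pool.Agent.Results.MP_93d35c_nt.No

open Filter Nat

theorem result : ¬ ∃ n₀ : ℕ, ∀ x y : ℕ, n₀ ≤ x → n₀ ≤ y → 0 < x → 0 < y →
    primeCounting (x * y) ^ 2 ≤ primeCounting (x ^ 2) * primeCounting (y ^ 2) := by
  rintro ⟨n₀, h⟩
  obtain ⟨f, hf⟩ : ∃ f : ℕ → ℕ, ∀ x, f x = primeCounting (x ^ 2) := ⟨_, fun _ => rfl⟩
  have h1 : ∀ x, n₀ + 2 ≤ x → f (x + 1) ^ 2 ≤ f x * f (x + 2) := fun x hx => by
    have e : primeCounting ((x + 1) ^ 2) = primeCounting (x * (x + 2)) := by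
      have : ¬ (x * (x + 2) + 1).Prime := by
        rw [show x * (x + 2) + 1 = (x + 1) ^ 2 by ring]
        exact Nat.Prime.not_prime_pow le_rfl
      rw [show (x + 1) ^ 2 = x * (x + 2) + 1 by ring, primeCounting, primeCounting', count_succ,
        if_neg this]
      rfl
    rw [hf, hf, hf, e]
    exact h x (x + 2) (by omega) (by omega) (by omega) (by omega)
  have h2 : Monotone f := fun a b hab => by
    rw [hf, hf]; exact monotone_primeCounting (Nat.pow_le_pow_left hab 2)
  have h3 : ∀ x, 2 ≤ x → 0 < f x := fun x hx => lt_of_lt_of_le (by rw [hf]; decide) (h2 hx)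
  obtain ⟨n, hn, h4⟩ : ∃ n, n₀ + 2 ≤ n ∧ f n < f (n + 1) := by
    by_contra hc
    push Not at hc
    have : ∀ x, n₀ + 2 ≤ x → f x ≤ f (n₀ + 2) := fun x hx => by
      induction x, hx using Nat.le_induction with
      | base => rfl
      | succ x hx ih => exact (hc x hx).trans ih
    obtain ⟨x, a, b⟩ := ((tendsto_primeCounting.eventually_gt_atTop (f (n₀ + 2))).and
      (eventually_ge_atTop (n₀ + 2))).exists
    have := this x b
    have := monotone_primeCounting (Nat.le_self_pow two_ne_zero x)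
    rw [← hf] at this
    omega
  have pa : (0 : ℝ) < f n := by exact_mod_cast h3 n (by omega)
  obtain ⟨r, hr⟩ : ∃ r : ℝ, r = f (n + 1) / f n := ⟨_, rfl⟩
  have r1 : 1 < r := by rw [hr, one_lt_div pa]; exact_mod_cast h4
  have h5 : ∀ x, n ≤ x → r * f x ≤ f (x + 1) := fun x hx => by
    induction x, hx using Nat.le_induction with
    | base => rw [hr, div_mul_cancel₀ _ pa.ne']
    | succ x hx ih =>
      have a : (f (x + 1) : ℝ) ^ 2 ≤ f x * f (x + 2) := by exact_mod_cast h1 x (by omega)
      have b : (0 : ℝ) < f x := by exact_mod_cast h3 x (by omega)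
      refine le_of_mul_le_mul_left ?_ b
      nlinarith [mul_le_mul_of_nonneg_right ih (Nat.cast_nonneg (f (x + 1)))]
  have h6 : ∀ x, n ≤ x → r ^ x ≤ r ^ n * f x := fun x hx => by
    induction x, hx using Nat.le_induction with
    | base => exact le_mul_of_one_le_right (by positivity) (by exact_mod_cast h3 n (by omega))
    | succ x hx ih =>
      calc r ^ (x + 1) = r * r ^ x := by ring
        _ ≤ r * (r ^ n * f x) := by gcongr
        _ = r ^ n * (r * f x) := by ring
        _ ≤ _ := by gcongr; exact h5 x hx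
  obtain ⟨x, a, b⟩ := (((tendsto_pow_const_div_const_pow_of_one_lt 2 r1).eventually_lt_const
    (show 0 < 1 / (2 * r ^ n) by positivity)).and (eventually_ge_atTop n)).exists
  have c : f x ≤ 2 * x ^ 2 := by
    have := count_le Nat.Prime (n := x ^ 2 + 1)
    have : 0 < x ^ 2 := pow_pos (by omega) 2
    rw [hf, primeCounting, primeCounting']
    omega
  have d : (f x : ℝ) ≤ 2 * x ^ 2 := by exact_mod_cast c
  rw [div_lt_div_iff₀ (by positivity) (by positivity)] at a
  nlinarith [h6 x b, mul_le_mul_of_nonneg_left d (show 0 ≤ r ^ n by positivity)]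

end Pool.Agent.Results.MP_93d35c_nt.No
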